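import Mathlib
import Pool.Agent.Q249.QuasiDensityDefs
import Pool.Agent.Q249.CoverApps

/-!
Lower densities need not be `(-1)`-homogeneous (on each of `ℤ`, `ℕ`, `ℕ⁺`).
-/

namespace Pool.Agent.Results.MP_1da4e9_nt.NotHomogeneous

open Q249.QD

/-- On each `H ∈ {ℤ, ℕ, ℕ⁺}` there is an upper density whose lower dual is not
`(-1)`-homogeneous. -/
theorem result : ∀ H : Set ℤ, (H = Set.univ ∨ H = NN ∨ H = PP) →
    ∃ μ : Set ℤ → ℝ, IsUpperDensity H μ ∧ ∃ X : Set ℤ, X ⊆ H ∧ ∃ k : ℕ, 0 < k ∧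
      lowerDual H μ (dil k 0 X) ≠ lowerDual H μ X / k := by
  intro H hH
  obtain ⟨μ, hμ, X, hX, h⟩ := Q249.Cover.nonhomogeneous H hH
  exact ⟨μ, hμ, X, hX, 2, two_pos, by simpa using h⟩

end Pool.Agent.Results.MP_1da4e9_nt.NotHomogeneous
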