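import Mathlib
import Pool.Agent.Q249.QuasiDensityDefs
import Pool.Agent.Q249.CoverApps

/-!
Lower quasi-densities: translation invariant on `ℤ`, but not always on `ℕ` and `ℕ⁺`.
-/

namespace Pool.Agent.Results.MP_1da4e9_nt.TranslationInvariance

open Q249.QD

/-- Every lower quasi-density on `ℤ` is translation invariant; on `ℕ` and on `ℕ⁺` there are lower
quasi-densities which are not. -/
theorem result :
    (∀ μ : Set ℤ → ℝ, IsUpperQuasiDensity Set.univ μ → ∀ (X : Set ℤ) (h : ℕ),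
      lowerDual Set.univ μ (dil 1 h X) = lowerDual Set.univ μ X) ∧
    ∀ H : Set ℤ, (H = NN ∨ H = PP) →
      ∃ μ : Set ℤ → ℝ, IsUpperQuasiDensity H μ ∧ ∃ X : Set ℤ, X ⊆ H ∧ ∃ h : ℕ,
        lowerDual H μ (dil 1 h X) ≠ lowerDual H μ X := by
  refine ⟨fun μ hμ X h => Q249.Cover.transl_univ μ hμ X h, ?_⟩
  rintro H (rfl | rfl)
  · obtain ⟨μ, hμ, X, hX, h⟩ := Q249.Cover.not_transl_NN
    exact ⟨μ, hμ, X, hX, 1, h⟩
  · obtain ⟨μ, hμ, X, hX, h⟩ := Q249.Cover.not_transl_PP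
    exact ⟨μ, hμ, X, hX, 1, h⟩

end Pool.Agent.Results.MP_1da4e9_nt.TranslationInvariance
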